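import Pool.Agent.X220.CG.Fin

set_option autoImplicit false

/-! # The fields with bounded discriminant -/

namespace Pool.Agent.X220.CG

open Finset Polynomial NumberField Filter
open Pool.Agent.X220.FP
open Pool.Agent.X55.Fam
open Pool.Agent.X32.Cls

lemma card_div {D r : ℕ} (hsf : Squarefree D) (hr : D.primeFactorsList.length ≤ r) : D.divisors.card ≤ 2 ^ r := by
  have h1 : D.divisors.card ≤ D.primeFactors.powerset.card := by
    refine card_le_card_of_injOn (fun e => e.primeFactors) ?_ ?_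
    · intro e he
      rw [mem_coe, Nat.mem_divisors] at he
      rw [mem_coe, mem_powerset]
      exact Nat.primeFactors_mono he.1 he.2
    · intro e he e' he' h
      rw [mem_coe, Nat.mem_divisors] at he he'
      rw [← Nat.prod_primeFactors_of_squarefree (hsf.squarefree_of_dvd he.1),
        ← Nat.prod_primeFactors_of_squarefree (hsf.squarefree_of_dvd he'.1)]
      simp only at h
      rw [h]
  rw [card_powerset] at h1
  refine h1.trans (Nat.pow_le_pow_right (by norm_num) (le_trans ?_ hr))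
  unfold Nat.primeFactors
  exact List.toFinset_card_le _

/-- the property of the fields -/
def SpA {s : ℕ} (X : ℝ) (r : ℕ) (w : ℝ) (Q : Fin s → ℝ[X]) (u ρ : Fin s → ℝ) (m : ℕ) (K : IntermediateField ℚ ℂ) : Prop :=
  ∃ _ : NumberField K, Module.finrank ℚ K = 2 ∧ (∃ x : K, (x : ℂ).im ≠ 0) ∧
    ∃ D : ℕ, discr K = -(D : ℤ) ∧ (D : ℝ) ≤ X ∧ Squarefree D ∧ Good r w D ∧ InBox Q u ρ D ∧
      ∃ c : ClassGroup (𝓞 K), orderOf c = m

lemma spA_fin {s : ℕ} (X : ℝ) (r : ℕ) (w : ℝ) (Q : Fin s → ℝ[X]) (u ρ : Fin s → ℝ) (m : ℕ) :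
    {K | SpA X r w Q u ρ m K}.Finite := by
  refine finite_fields _ X fun K hK => ?_
  obtain ⟨h1, -, -, D, h2, h3, -⟩ := hK
  refine ⟨h1, ?_⟩
  rw [h2]
  push_cast
  rw [abs_neg, Nat.abs_cast]
  exact h3

/-- the parameters -/
lemma params (g H₀ : ℕ) (hg : 1 ≤ g) : ∃ X₀ : ℝ, 1 ≤ X₀ ∧ ∀ X : ℝ, X₀ ≤ X → ∃ Y H : ℕ, H₀ ≤ H ∧ 3 ≤ H ∧
    (∀ M : ℕ, Y / 2 < M → M ≤ Y → 2 ≤ M ∧ 1 + H ≤ 2 * M ^ g ∧ 4 * (M : ℝ) ^ g ≤ (H : ℝ) ^ (2 - 1 / 2 : ℝ) ∧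
      4 * (M : ℝ) ^ (2 * g) ≤ X) ∧ (H : ℝ) ≤ X ∧ X ^ (1 / 4 : ℝ) ≤ H ∧
    X ^ (1 / 2 + 1 / (2 * g) : ℝ) / (16 * 6 ^ g) ≤ ((Y - Y / 2 : ℕ) : ℝ) * H := by
  have hgR : (1 : ℝ) ≤ g := by exact_mod_cast hg
  have hg2 : (0 : ℝ) < 2 * g := by linarith
  have ev1 : ∀ᶠ X : ℝ in atTop, (6 + 2 * H₀ : ℝ) ≤ (X / 4) ^ (1 / (2 * g) : ℝ) := by
    have h1 : Tendsto (fun X : ℝ => X / 4) atTop atTop := tendsto_id.atTop_div_const (by norm_num)
    exact ((tendsto_rpow_atTop (by positivity : (0 : ℝ) < 1 / (2 * g))).comp h1).eventually_ge_atTop _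
  have ev2 : ∀ᶠ X : ℝ in atTop, (16 * 9 ^ g + 2 * 6 ^ g : ℝ) ≤ X ^ (1 / 4 : ℝ) :=
    (tendsto_rpow_atTop (by norm_num : (0 : ℝ) < 1 / 4)).eventually_ge_atTop _
  obtain ⟨X₀, hX₀⟩ := eventually_atTop.1 ((ev1.and ev2).and (eventually_ge_atTop 81))
  refine ⟨max X₀ 1, le_max_right _ _, fun X hX => ?_⟩
  obtain ⟨⟨h1, h2⟩, h3⟩ := hX₀ X ((le_max_left _ _).trans hX)
  have hX0 : (0 : ℝ) < X := by linarith
  obtain ⟨y, hy⟩ : ∃ y : ℝ, y = (X / 4) ^ (1 / (2 * g) : ℝ) := ⟨_, rfl⟩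
  rw [← hy] at h1
  have hH0R : (0 : ℝ) ≤ H₀ := Nat.cast_nonneg _
  have hy0 : 0 < y := by linarith
  have hyg : y ^ (2 * g) = X / 4 := by
    rw [hy, ← Real.rpow_natCast, ← Real.rpow_mul (by positivity)]
    push_cast
    rw [one_div_mul_cancel hg2.ne', Real.rpow_one]
  have hyg1 : y ^ g = X ^ (1 / 2 : ℝ) / 2 := by
    have e1 : (y ^ g) ^ 2 = (X ^ (1 / 2 : ℝ) / 2) ^ 2 := by
      rw [← pow_mul, mul_comm g 2, hyg, div_pow, ← Real.rpow_natCast (X ^ (1 / 2 : ℝ)), ← Real.rpow_mul hX0.le]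
      norm_num
    exact (pow_left_inj₀ (by positivity) (by positivity) two_ne_zero).1 e1
  obtain ⟨Y, hY⟩ : ∃ Y : ℕ, Y = ⌊y⌋₊ := ⟨_, rfl⟩
  have hYy : (Y : ℝ) ≤ y := by rw [hY]; exact Nat.floor_le hy0.le
  have hYy1 : y < Y + 1 := by rw [hY]; exact Nat.lt_floor_add_one y
  have hYn : 5 + 2 * H₀ < Y + 1 := by
    have : ((5 + 2 * H₀ : ℕ) : ℝ) < ((Y + 1 : ℕ) : ℝ) := by
      push_cast
      linarith
    exact_mod_cast this
  obtain ⟨Z, hZ⟩ : ∃ Z : ℕ, Z = Y / 2 := ⟨_, rfl⟩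
  have hZ2 : 2 ≤ Z := by omega
  have hZH : H₀ ≤ Z := by omega
  have hZ6 : y ≤ 6 * Z := by
    have : Y + 1 ≤ 6 * Z := by omega
    have h4 : ((Y + 1 : ℕ) : ℝ) ≤ ((6 * Z : ℕ) : ℝ) := by exact_mod_cast this
    push_cast at h4
    linarith
  obtain ⟨H, hH⟩ : ∃ H : ℕ, H = Z ^ g := ⟨_, rfl⟩
  have hZg : Z ≤ Z ^ g := Nat.le_self_pow (by omega) Z
  have hHy : (H : ℝ) * 6 ^ g ≥ y ^ g := by
    rw [hH]
    push_cast
    rw [← mul_pow]
    refine pow_le_pow_left₀ hy0.le ?_ g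
    linarith
  have h6g : (0 : ℝ) < 6 ^ g := by positivity
  have hH14 : X ^ (1 / 4 : ℝ) ≤ H := by
    have e2 : X ^ (1 / 2 : ℝ) = X ^ (1 / 4 : ℝ) * X ^ (1 / 4 : ℝ) := by
      rw [← Real.rpow_add hX0]
      norm_num
    have h4 : 0 < X ^ (1 / 4 : ℝ) := Real.rpow_pos_of_pos hX0 _
    have h5 : (0 : ℝ) < 16 * 9 ^ g := by positivity
    have h6 : 2 * (6 : ℝ) ^ g * X ^ (1 / 4 : ℝ) ≤ X ^ (1 / 2 : ℝ) := by
      rw [e2]
      exact mul_le_mul_of_nonneg_right (by linarith) h4.le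
    rw [hyg1] at hHy
    by_contra hcon
    push Not at hcon
    nlinarith
  have hH16 : (16 : ℝ) * 9 ^ g ≤ H := by linarith
  have hH3 : 3 ≤ H := by
    have h5 : (1 : ℝ) ≤ 9 ^ g := one_le_pow₀ (by norm_num)
    have : (3 : ℝ) ≤ H := by linarith
    exact_mod_cast this
  have hH0 : (0 : ℝ) < H := by
    have : (3 : ℝ) ≤ H := by exact_mod_cast hH3
    linarith
  refine ⟨Y, H, by omega, hH3, ?_, ?_, hH14, ?_⟩
  · intro M hM1 hM2
    rw [← hZ] at hM1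
    have hM0 : 2 ≤ M := by omega
    refine ⟨hM0, ?_, ?_, ?_⟩
    · have h4 : Z ^ g ≤ M ^ g := Nat.pow_le_pow_left (by omega) g
      have h5 : 1 ≤ M ^ g := Nat.one_le_pow _ _ (by omega)
      omega
    · have h4 : M ≤ 3 * Z := by omega
      have h5 : (M : ℝ) ^ g ≤ 3 ^ g * H := by
        rw [hH]
        push_cast
        rw [← mul_pow]
        refine pow_le_pow_left₀ (by positivity) ?_ g
        exact_mod_cast h4
      have h6 : (4 * 3 ^ g : ℝ) ≤ (H : ℝ) ^ (1 / 2 : ℝ) := by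
        rw [← Real.sqrt_eq_rpow]
        refine Real.le_sqrt_of_sq_le ?_
        have : (4 * 3 ^ g : ℝ) ^ 2 = 16 * 9 ^ g := by
          rw [mul_pow, ← pow_mul, mul_comm g 2, pow_mul]
          norm_num
        rw [this]
        exact hH16
      have h7 : (H : ℝ) ^ (2 - 1 / 2 : ℝ) = (H : ℝ) ^ (1 / 2 : ℝ) * H := by
        nth_rewrite 3 [← Real.rpow_one (H : ℝ)]
        rw [← Real.rpow_add hH0]
        norm_num
      rw [h7]
      calc 4 * (M : ℝ) ^ g ≤ 4 * (3 ^ g * H) := by linarith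
        _ = (4 * 3 ^ g) * H := by ring
        _ ≤ _ := mul_le_mul_of_nonneg_right h6 hH0.le
    · have h4 : (M : ℝ) ≤ y := le_trans (by exact_mod_cast hM2) hYy
      have h5 : (M : ℝ) ^ (2 * g) ≤ y ^ (2 * g) := pow_le_pow_left₀ (by positivity) h4 _
      rw [hyg] at h5
      linarith
  · have h4 : (H : ℝ) ≤ y ^ g := by
      rw [hH]
      push_cast
      refine pow_le_pow_left₀ (by positivity) ?_ g
      refine le_trans ?_ hYy
      exact_mod_cast (by omega : Z ≤ Y)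
    have h5 : X ^ (1 / 2 : ℝ) ≤ X := by
      nth_rewrite 2 [← Real.rpow_one X]
      exact Real.rpow_le_rpow_of_exponent_le (by linarith) (by norm_num)
    have h6 : 0 ≤ X ^ (1 / 2 : ℝ) := by positivity
    rw [hyg1] at h4
    linarith
  · have h4 : y / 4 ≤ ((Y - Y / 2 : ℕ) : ℝ) := by
      have h5 : Y + 1 ≤ 4 * (Y - Y / 2) := by omega
      have h6 : ((Y + 1 : ℕ) : ℝ) ≤ 4 * ((Y - Y / 2 : ℕ) : ℝ) := by exact_mod_cast h5
      push_cast at h6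
      linarith
    have h5 : y ^ g / 6 ^ g ≤ H := by
      rw [div_le_iff₀ h6g]
      exact hHy
    have h6 : y / 4 * (y ^ g / 6 ^ g) ≤ ((Y - Y / 2 : ℕ) : ℝ) * H :=
      mul_le_mul h4 h5 (by positivity) (Nat.cast_nonneg _)
    refine le_trans ?_ h6
    have e1 : X ^ (1 / 2 + 1 / (2 * g) : ℝ) = X ^ (1 / 2 : ℝ) * X ^ (1 / (2 * g) : ℝ) := Real.rpow_add hX0 _ _
    have e2 : X ^ (1 / (2 * g) : ℝ) ≤ 2 * y := by
      have h7 : (X : ℝ) ^ (1 / (2 * g) : ℝ) = (4 : ℝ) ^ (1 / (2 * g) : ℝ) * y := by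
        rw [hy, ← Real.mul_rpow (by norm_num) (by positivity)]
        congr 1
        ring
      have h8 : (4 : ℝ) ^ (1 / (2 * g) : ℝ) ≤ 2 := by
        have h9 : (4 : ℝ) ^ (1 / (2 * g) : ℝ) ≤ (4 : ℝ) ^ (1 / 2 : ℝ) := by
          refine Real.rpow_le_rpow_of_exponent_le (by norm_num) ?_
          exact one_div_le_one_div_of_le (by norm_num) (by linarith)
        have h10 : (4 : ℝ) ^ (1 / 2 : ℝ) = 2 := by
          rw [← Real.sqrt_eq_rpow, show (4 : ℝ) = 2 ^ 2 by norm_num]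
          exact Real.sqrt_sq (by norm_num)
        linarith
      rw [h7]
      exact mul_le_mul_of_nonneg_right h8 hy0.le
    rw [e1, hyg1]
    have h7 : 0 ≤ X ^ (1 / 2 : ℝ) := by positivity
    rw [div_le_iff₀ (by positivity)]
    calc X ^ (1 / 2 : ℝ) * X ^ (1 / (2 * g) : ℝ) ≤ X ^ (1 / 2 : ℝ) * (2 * y) := mul_le_mul_of_nonneg_left e2 h7
      _ = y / 4 * (X ^ (1 / 2 : ℝ) / 2 / 6 ^ g) * (16 * 6 ^ g) := by
        field_simp
        ring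

open Classical in
theorem all (s d τ g : ℕ) (hd : 1 ≤ d) (hg : 1 ≤ g) (c₀ : ℝ) (hc₀ : 0 < c₀) :
    ∃ (r : ℕ) (δ c : ℝ) (X₀ : ℝ), 0 < δ ∧ 0 < c ∧ ∀ X : ℝ, X₀ ≤ X →
      ∀ Q : Fin s → ℝ[X], (∀ i, (Q i).natDegree ≤ d) → FT' c₀ τ (fun i => (Q i).coeff d) →
      ∀ u ρ : Fin s → ℝ, (∀ i, X ^ (-δ) ≤ ρ i ∧ ρ i ≤ 1) →
      c * (X ^ (1 / 2 + 1 / (2 * g) : ℝ) * ∏ i, ρ i) / Real.log X ^ 2 ≤
        (Set.ncard {K | SpA X r (X ^ δ) Q u ρ (2 * g) K} : ℝ) := by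
  obtain ⟨r, δ, c, H₀, hδ, hc, h⟩ := main s d τ hd c₀ hc₀ (1 / 2) (by norm_num)
  obtain ⟨H₁, hH₁⟩ := Pool.Agent.X220.CN.ev_pow' δ 2 hδ
  obtain ⟨X₀, hX₀1, hX₀⟩ := params g (max H₀ H₁) hg
  refine ⟨r, δ / 4, c / (16 * 6 ^ g) / 2 ^ r, X₀, by positivity, by positivity, ?_⟩
  intro X hX Q hQ hFT u ρ hρ
  obtain ⟨Y, H, p1, p2, p3, p4, p5, p6⟩ := hX₀ X hX
  have hX1 : 1 ≤ X := hX₀1.trans hX
  have hX0 : 0 < X := by linarith
  have g0 : H₀ ≤ H := (le_max_left _ _).trans p1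
  have g1 : H₁ ≤ H := (le_max_right _ _).trans p1
  have hHX : X ^ (δ / 4) ≤ (H : ℝ) ^ δ := by
    calc X ^ (δ / 4) = (X ^ (1 / 4 : ℝ)) ^ δ := by
          rw [← Real.rpow_mul hX0.le]
          congr 1
          ring
      _ ≤ _ := Real.rpow_le_rpow (by positivity) p5 hδ.le
  have hH0 : (0 : ℝ) < H := by exact_mod_cast (by omega : 0 < H)
  have hρ' : ∀ i, (H : ℝ) ^ (-δ) ≤ ρ i ∧ ρ i ≤ 1 := by
    intro i
    refine ⟨le_trans ?_ (hρ i).1, (hρ i).2⟩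
    rw [Real.rpow_neg hH0.le, Real.rpow_neg hX0.le]
    exact inv_anti₀ (by positivity) hHX
  have hρ0 : 0 ≤ ∏ i, ρ i := prod_nonneg fun i _ => le_trans (by positivity) (hρ i).1
  -- the pairs
  let S : ℕ → Finset ℕ := fun M => (Ioc 1 (1 + H)).filter (fun t => InBox Q u ρ (t * (4 * M ^ g - t)) ∧
        Squarefree (t * (4 * M ^ g - t)) ∧ Good r ((H : ℝ) ^ δ) (t * (4 * M ^ g - t)))
  have hS : ∀ M : ℕ, Y / 2 < M → M ≤ Y → c * (H * ∏ i, ρ i) / Real.log H ^ 2 ≤ ((S M).card : ℝ) := by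
    intro M hM1 hM2
    obtain ⟨q1, q2, q3, q4⟩ := p3 M hM1 hM2
    have hMg1 : 1 ≤ M ^ g := Nat.one_le_pow _ _ (by omega)
    have key := h H g0 (4 * M ^ g) ⟨2 * M ^ g, by ring⟩ (by push_cast; exact q3) Q hQ hFT u ρ hρ' 1 (by omega)
    refine key.trans (le_of_eq ?_)
    rw [← Set.ncard_coe_finset]
    congr 2
    ext t
    simp only [S, coe_filter, mem_Ioc, Set.mem_setOf_eq, and_assoc]
  have hmem : ∀ M : ℕ, Y / 2 < M → M ≤ Y → ∀ t ∈ S M, 2 ≤ t ∧ t ≤ 2 * M ^ g ∧ 2 ≤ M ∧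
      4 * (M : ℝ) ^ (2 * g) ≤ X ∧ InBox Q u ρ (t * (4 * M ^ g - t)) ∧ Squarefree (t * (4 * M ^ g - t)) ∧
      Good r ((H : ℝ) ^ δ) (t * (4 * M ^ g - t)) ∧ t % 2 = 1 := by
    intro M hM1 hM2 t ht
    obtain ⟨q1, q2, q3, q4⟩ := p3 M hM1 hM2
    simp only [S, mem_filter, mem_Ioc] at ht
    obtain ⟨⟨t1, t2⟩, t3, t4, t5⟩ := ht
    refine ⟨by omega, by omega, q1, q4, t3, t4, t5, ?_⟩
    by_contra hodd
    have h2 : 2 ∣ t * (4 * M ^ g - t) := Dvd.dvd.mul_right (by omega) _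
    have h3 := t5.2.2 2 Nat.prime_two h2
    have h4 := hH₁ H g1
    push_cast at h3
    linarith
  obtain ⟨P, hP⟩ : ∃ P : Finset (Σ _ : ℕ, ℕ), P = (Ioc (Y / 2) Y).sigma S := ⟨_, rfl⟩
  obtain ⟨F, hF⟩ : ∃ F : Finset ℕ, F = P.image (fun a => a.2 * (4 * a.1 ^ g - a.2)) := ⟨_, rfl⟩
  have hPF : P.card ≤ 2 ^ r * F.card := by
    rw [hF]
    apply card_le_mul_card_image
    intro D hD
    rw [mem_image] at hD
    obtain ⟨a, ha, rfl⟩ := hD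
    rw [hP, mem_sigma, mem_Ioc] at ha
    obtain ⟨a1, a2, a3, a4, a5, a6, a7, a8⟩ := hmem a.1 ha.1.1 ha.1.2 a.2 ha.2
    refine le_trans ?_ (card_div a6 a7.2.1)
    apply card_le_card_of_injOn (fun b => b.2)
    · intro b hb
      rw [mem_coe, mem_filter] at hb
      obtain ⟨hb1, hb2⟩ := hb
      rw [mem_coe, Nat.mem_divisors]
      exact ⟨by rw [← hb2]; exact dvd_mul_right _ _, a6.ne_zero⟩
    · intro b hb b' hb' hbb
      rw [mem_coe, mem_filter] at hb hb'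
      obtain ⟨hb1, hb2⟩ := hb
      obtain ⟨hb1', hb2'⟩ := hb'
      obtain ⟨M, t⟩ := b
      obtain ⟨M', t'⟩ := b'
      rw [hP, mem_sigma, mem_Ioc] at hb1 hb1'
      simp only at hbb hb2 hb2' hb1 hb1'
      subst hbb
      obtain ⟨c1, c2, c3, -⟩ := hmem M hb1.1.1 hb1.1.2 t hb1.2
      obtain ⟨d1, d2, d3, -⟩ := hmem M' hb1'.1.1 hb1'.1.2 t hb1'.2
      have h8 : t * (4 * M ^ g - t) = t * (4 * M' ^ g - t) := by rw [hb2, hb2']
      have h9 := Nat.eq_of_mul_eq_mul_left (by omega : 0 < t) h8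
      have h10 : M ^ g = M' ^ g := by omega
      rw [Nat.pow_left_injective (by omega : g ≠ 0) h10]
  -- the fields
  have hfield : ∀ D ∈ F, Squarefree D ∧ D % 4 = 3 ∧ SpA X r (X ^ (δ / 4)) Q u ρ (2 * g) (fld D) := by
    intro D hD
    rw [hF, mem_image] at hD
    obtain ⟨a, ha, rfl⟩ := hD
    rw [hP, mem_sigma, mem_Ioc] at ha
    obtain ⟨a1, a2, a3, a4, a5, a6, a7, a8⟩ := hmem a.1 ha.1.1 ha.1.2 a.2 ha.2
    obtain ⟨M, t⟩ := a
    simp only at a1 a2 a3 a4 a5 a6 a7 a8 ⊢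
    obtain ⟨b1, b2⟩ := spec hg a3 a1 a2 a8 a6
    obtain ⟨hNF, f1, f2, f3⟩ := fld_spec a6 b1
    refine ⟨a6, b1, hNF, f1, f2, t * (4 * M ^ g - t), f3, ?_, a6, ⟨a7.1, a7.2.1, fun q hq hqd =>
      lt_of_le_of_lt hHX (a7.2.2 q hq hqd)⟩, a5, ?_⟩
    · refine le_trans ?_ a4
      have h5 : t * (4 * M ^ g - t) ≤ 4 * M ^ (2 * g) := by
        obtain ⟨w, hw⟩ : ∃ w, w = 4 * M ^ g - t := ⟨_, rfl⟩
        rw [← hw]
        have h6 : t + w = 4 * M ^ g := by omega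
        have e : M ^ (2 * g) = M ^ g * M ^ g := by rw [two_mul, pow_add]
        rw [e]
        nlinarith [sq_nonneg ((t : ℤ) - w), four_mul_le_sq_add (t : ℕ) w]
      exact_mod_cast h5
    · obtain ⟨I, -, hI⟩ := b2 (fld (t * (4 * M ^ g - t))) f1 f3
      exact ⟨_, hI⟩
  have hcard : F.card ≤ Set.ncard {K | SpA X r (X ^ (δ / 4)) Q u ρ (2 * g) K} := by
    rw [← Set.ncard_coe_finset]
    refine Set.ncard_le_ncard_of_injOn fld (fun D hD => (hfield D hD).2.2) ?_ (spA_fin _ _ _ _ _ _ _)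
    intro D hD D' hD' he
    obtain ⟨s1, s2, -⟩ := hfield D hD
    obtain ⟨s1', s2', -⟩ := hfield D' hD'
    exact fld_inj s1 s2 s1' s2' he
  -- the number of the pairs
  have hH1 : (1 : ℝ) < H := by exact_mod_cast (by omega : 1 < H)
  have hlogH : 0 < Real.log H := Real.log_pos hH1
  have hlogle : Real.log H ≤ Real.log X := Real.log_le_log hH0 p4
  have hlow : c * (X ^ (1 / 2 + 1 / (2 * g) : ℝ) / (16 * 6 ^ g) * ∏ i, ρ i) / Real.log X ^ 2 ≤ P.card := by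
    have e1 : (P.card : ℝ) = ∑ M ∈ Ioc (Y / 2) Y, ((S M).card : ℝ) := by
      rw [hP, card_sigma]
      push_cast
      rfl
    rw [e1]
    have h1 : ∀ M ∈ Ioc (Y / 2) Y, c * (H * ∏ i, ρ i) / Real.log X ^ 2 ≤ ((S M).card : ℝ) := by
      intro M hM
      rw [mem_Ioc] at hM
      refine le_trans ?_ (hS M hM.1 hM.2)
      gcongr
    have h2 := card_nsmul_le_sum _ _ _ h1
    rw [nsmul_eq_mul, Nat.card_Ioc] at h2
    refine le_trans ?_ h2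
    have h3 := mul_le_mul_of_nonneg_right p6 hρ0
    calc c * (X ^ (1 / 2 + 1 / (2 * g) : ℝ) / (16 * 6 ^ g) * ∏ i, ρ i) / Real.log X ^ 2
        ≤ c * (((Y - Y / 2 : ℕ) : ℝ) * H * ∏ i, ρ i) / Real.log X ^ 2 := by gcongr
      _ = _ := by ring
  have hPr : (P.card : ℝ) ≤ 2 ^ r * (Set.ncard {K | SpA X r (X ^ (δ / 4)) Q u ρ (2 * g) K} : ℝ) := by
    have h1 : P.card ≤ 2 ^ r * Set.ncard {K | SpA X r (X ^ (δ / 4)) Q u ρ (2 * g) K} :=
      hPF.trans (Nat.mul_le_mul_left _ hcard)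
    exact_mod_cast h1
  have h2r : (0 : ℝ) < 2 ^ r := by positivity
  have hend := hlow.trans hPr
  have e : c / (16 * 6 ^ g) / 2 ^ r * (X ^ (1 / 2 + 1 / (2 * g) : ℝ) * ∏ i, ρ i) / Real.log X ^ 2 =
      (c * (X ^ (1 / 2 + 1 / (2 * g) : ℝ) / (16 * 6 ^ g) * ∏ i, ρ i) / Real.log X ^ 2) / 2 ^ r := by ring
  rw [e, div_le_iff₀ h2r, mul_comm _ ((2 : ℝ) ^ r)]
  exact hend

end Pool.Agent.X220.CG
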