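import Pool.Agent.X220.CN.Main
import Pool.Agent.X32.Cls.Fld

set_option autoImplicit false

/-! # Class groups: preparations -/

namespace Pool.Agent.X220.CG

open Finset Polynomial NumberField
open Pool.Agent.X220.FP
open Pool.Agent.X220.CN

lemma FT'_neg {s : ℕ} {c₀ : ℝ} {τ : ℕ} {α β : Fin s → ℝ} (h : FT' c₀ τ α) (hβ : ∀ i, β i = -α i) : FT' c₀ τ β := by
  intro g hg a
  have h1 := h (fun i => -g i) (by
    intro h0
    apply hg
    funext i
    have := congrFun h0 i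
    simp only [Pi.zero_apply, neg_eq_zero] at this
    simpa using this) a
  have e1 : ∑ i, |((-g i : ℤ) : ℝ)| = ∑ i, |(g i : ℝ)| := by
    refine sum_congr rfl fun i _ => ?_
    push_cast
    rw [abs_neg]
  have e2 : ∑ i, ((-g i : ℤ) : ℝ) * α i = ∑ i, g i * β i := by
    refine sum_congr rfl fun i _ => ?_
    rw [hβ]
    push_cast
    ring
  rw [e1, e2] at h1
  exact h1

lemma FT'_sign {s : ℕ} {c₀ : ℝ} {τ : ℕ} {α β : Fin s → ℝ} (h : FT' c₀ τ α) (d : ℕ)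
    (hβ : ∀ i, β i = α i * (-1) ^ d) : FT' c₀ τ β := by
  rcases Nat.even_or_odd d with hd | hd
  · have : β = α := by
      funext i
      rw [hβ, hd.neg_one_pow, mul_one]
    rw [this]
    exact h
  · refine FT'_neg h fun i => ?_
    rw [hβ, hd.neg_one_pow]
    ring

/-- the polynomial `x (N - x)` -/
noncomputable def qq (N : ℕ) : ℝ[X] := (C 1 * X + C 0) * (C (-1) * X + C (N : ℝ))

lemma qq_deg (N : ℕ) : (qq N).natDegree ≤ 2 := by
  unfold qq
  exact natDegree_mul_le.trans (add_le_add natDegree_linear_le natDegree_linear_le)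

lemma qq_coeff (N : ℕ) : (qq N).coeff 2 = -1 := by
  have h3 : ∀ a b : ℝ, (C a * X + C b : ℝ[X]).coeff 1 = a := fun a b => by simp [coeff_X, coeff_C]
  unfold qq
  rw [show (2 : ℕ) = 1 + 1 from rfl, coeff_mul_add_eq_of_natDegree_le natDegree_linear_le natDegree_linear_le, h3, h3]
  ring

lemma qq_eval {N t : ℕ} (h : t ≤ N) : (qq N).eval (t : ℝ) = ((t * (N - t) : ℕ) : ℝ) := by
  unfold qq
  push_cast [Nat.cast_sub h]
  simp only [eval_mul, eval_add, eval_C, eval_X]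
  ring

open Classical in
/-- large square divisors of the values of a function which is injective modulo squares of primes -/
lemma bad_gen (f : ℕ → ℕ) (Z y M H : ℕ) (hy : 1 ≤ y) (hpos : ∀ m, M < m → m ≤ M + H → 0 < f m ∧ f m ≤ Z)
    (hc : ∀ p : ℕ, p.Prime → ∀ m m' : ℕ, M < m → m ≤ M + H → M < m' → m' ≤ M + H → p ^ 2 ∣ f m → p ^ 2 ∣ f m' →
      m ≡ m' [MOD p ^ 2]) :
    (((Ioc M (M + H)).filter (fun m => ∃ p : ℕ, p.Prime ∧ y < p ∧ p ^ 2 ∣ f m)).card : ℝ) ≤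
      2 * H / (y + 1) + Real.sqrt Z := by
  set P := Nat.sqrt Z with hP
  have h1 : (Ioc M (M + H)).filter (fun m => ∃ p : ℕ, p.Prime ∧ y < p ∧ p ^ 2 ∣ f m) ⊆
      ((Ioo y (P + 1)).filter Nat.Prime).biUnion (fun p => (Ioc M (M + H)).filter (fun m => p ^ 2 ∣ f m)) := by
    intro m hm
    simp only [mem_filter, mem_Ioc, mem_biUnion, mem_Ioo] at hm ⊢
    obtain ⟨⟨h1, h2⟩, p, h3, h4, h5⟩ := hm
    refine ⟨p, ⟨⟨h4, ?_⟩, h3⟩, ⟨h1, h2⟩, h5⟩
    obtain ⟨z1, z2⟩ := hpos m h1 h2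
    have h6 : p ^ 2 ≤ Z := (Nat.le_of_dvd z1 h5).trans z2
    rw [Nat.lt_succ_iff, hP, Nat.le_sqrt']
    exact h6
  have h2 : ∀ p ∈ (Ioo y (P + 1)).filter Nat.Prime,
      (((Ioc M (M + H)).filter (fun m => p ^ 2 ∣ f m)).card : ℝ) ≤ H * ((p : ℝ) ^ 2)⁻¹ + 1 := by
    intro p hp
    simp only [mem_filter, mem_Ioo] at hp
    have h3 := card_cong (p ^ 2) M H (by have := hp.2.pos; positivity)
      ((Ioc M (M + H)).filter (fun m => p ^ 2 ∣ f m))
      (fun m hm => by simpa using (mem_filter.1 hm).1) (by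
        intro m hm m' hm'
        obtain ⟨g1, g2⟩ := mem_filter.1 hm
        obtain ⟨g3, g4⟩ := mem_filter.1 hm'
        rw [mem_Ioc] at g1 g3
        exact hc p hp.2 m m' g1.1 g1.2 g3.1 g3.2 g2 g4)
    have h4 : (((Ioc M (M + H)).filter (fun m => p ^ 2 ∣ f m)).card : ℝ) ≤ ((H / p ^ 2 + 1 : ℕ) : ℝ) := by
      exact_mod_cast h3
    refine h4.trans ?_
    push_cast
    have h5 : ((H / p ^ 2 : ℕ) : ℝ) ≤ (H : ℝ) / ((p ^ 2 : ℕ) : ℝ) := Nat.cast_div_le
    push_cast at h5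
    rw [div_eq_mul_inv] at h5
    linarith
  have h3 : (((Ioc M (M + H)).filter (fun m => ∃ p : ℕ, p.Prime ∧ y < p ∧ p ^ 2 ∣ f m)).card : ℝ) ≤
      ∑ p ∈ (Ioo y (P + 1)).filter Nat.Prime, (H * ((p : ℝ) ^ 2)⁻¹ + 1) := by
    have h4 : (((Ioc M (M + H)).filter (fun m => ∃ p : ℕ, p.Prime ∧ y < p ∧ p ^ 2 ∣ f m)).card : ℝ) ≤
      ((∑ p ∈ (Ioo y (P + 1)).filter Nat.Prime, ((Ioc M (M + H)).filter (fun m => p ^ 2 ∣ f m)).card : ℕ) : ℝ) := by
      exact_mod_cast (card_le_card h1).trans card_biUnion_le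
    refine h4.trans ?_
    push_cast
    exact sum_le_sum h2
  have h4 : ∑ p ∈ (Ioo y (P + 1)).filter Nat.Prime, (H * ((p : ℝ) ^ 2)⁻¹ + 1) ≤
      ∑ p ∈ Ioo y (P + 1), (H * ((p : ℝ) ^ 2)⁻¹ + 1) :=
    sum_le_sum_of_subset_of_nonneg (filter_subset _ _) fun p _ _ => by positivity
  have h5 : ∑ p ∈ Ioo y (P + 1), (H * ((p : ℝ) ^ 2)⁻¹ + 1) ≤ H * (2 / (y + 1)) + P := by
    rw [sum_add_distrib, ← mul_sum]
    have h6 := sum_Ioo_inv_sq_le (α := ℝ) y (P + 1)
    have h7 : (∑ _p ∈ Ioo y (P + 1), (1 : ℝ)) ≤ P := by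
      rw [sum_const, Nat.card_Ioo, nsmul_eq_mul, mul_one]
      have : (P + 1 - y - 1 : ℕ) ≤ P := by omega
      exact_mod_cast this
    have h8 : (H : ℝ) * ∑ i ∈ Ioo y (P + 1), ((i : ℝ) ^ 2)⁻¹ ≤ H * (2 / (y + 1)) :=
      mul_le_mul_of_nonneg_left h6 (Nat.cast_nonneg _)
    linarith
  have h6 : (P : ℝ) ≤ Real.sqrt Z := Real.nat_sqrt_le_real_sqrt
  have h7 : (H : ℝ) * (2 / (y + 1)) = 2 * H / (y + 1) := by ring
  linarith

lemma omega_le {n : ℕ} (hn : n ≠ 0) : n.primeFactors.card ≤ Nat.log 2 n := by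
  have h1 : 2 ^ n.primeFactors.card ≤ ∏ p ∈ n.primeFactors, p :=
    Finset.pow_card_le_prod _ _ _ fun p hp => (Nat.prime_of_mem_primeFactors hp).two_le
  have h2 := Nat.le_of_dvd (Nat.pos_of_ne_zero hn) (Nat.prod_primeFactors_dvd n)
  exact Nat.le_log_of_pow_le (by norm_num) (h1.trans h2)

open Classical in
/-- the integers which have a large common prime factor with `N` -/
lemma bad_gcd (N y M H : ℕ) (hN : N ≠ 0) (hy : 1 ≤ y) :
    (((Ioc M (M + H)).filter (fun m => ∃ p : ℕ, p.Prime ∧ y < p ∧ p ∣ m ∧ p ∣ N)).card : ℝ) ≤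
      Nat.log 2 N * (H / (y + 1) + 1) := by
  have h1 : (Ioc M (M + H)).filter (fun m => ∃ p : ℕ, p.Prime ∧ y < p ∧ p ∣ m ∧ p ∣ N) ⊆
      (N.primeFactors.filter (fun p => y < p)).biUnion (fun p => (Ioc M (M + H)).filter (fun m => p ∣ m)) := by
    intro m hm
    simp only [mem_filter, mem_Ioc, mem_biUnion, Nat.mem_primeFactors] at hm ⊢
    obtain ⟨⟨h1, h2⟩, p, h3, h4, h5, h6⟩ := hm
    exact ⟨p, ⟨⟨h3, h6, hN⟩, h4⟩, ⟨h1, h2⟩, h5⟩
  have h2 : ∀ p ∈ N.primeFactors.filter (fun p => y < p),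
      ((Ioc M (M + H)).filter (fun m => p ∣ m)).card ≤ H / (y + 1) + 1 := by
    intro p hp
    simp only [mem_filter] at hp
    have h3 := card_cong p M H (by omega) ((Ioc M (M + H)).filter (fun m => p ∣ m))
      (fun m hm => by simpa using (mem_filter.1 hm).1) (by
        intro m hm m' hm'
        exact (Nat.modEq_zero_iff_dvd.2 (mem_filter.1 hm).2).trans (Nat.modEq_zero_iff_dvd.2 (mem_filter.1 hm').2).symm)
    refine h3.trans (Nat.succ_le_succ (Nat.div_le_div_left ?_ (by omega)))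
    omega
  have h3 : ((Ioc M (M + H)).filter (fun m => ∃ p : ℕ, p.Prime ∧ y < p ∧ p ∣ m ∧ p ∣ N)).card ≤
      Nat.log 2 N * (H / (y + 1) + 1) := by
    calc _ ≤ _ := card_le_card h1
      _ ≤ ∑ p ∈ N.primeFactors.filter (fun p => y < p), ((Ioc M (M + H)).filter (fun m => p ∣ m)).card := card_biUnion_le
      _ ≤ (N.primeFactors.filter (fun p => y < p)).card * (H / (y + 1) + 1) := sum_le_card_nsmul _ _ _ h2
      _ ≤ _ := Nat.mul_le_mul_right _ ((card_le_card (filter_subset _ _)).trans (omega_le hN))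
  have h4 : (((Ioc M (M + H)).filter (fun m => ∃ p : ℕ, p.Prime ∧ y < p ∧ p ∣ m ∧ p ∣ N)).card : ℝ) ≤
      ((Nat.log 2 N * (H / (y + 1) + 1) : ℕ) : ℝ) := by exact_mod_cast h3
  refine h4.trans ?_
  push_cast
  have h5 : ((H / (y + 1) : ℕ) : ℝ) ≤ (H : ℝ) / ((y + 1 : ℕ) : ℝ) := Nat.cast_div_le
  push_cast at h5
  gcongr

/-- the discriminant and the class -/
theorem spec {g M t : ℕ} (hg : 1 ≤ g) (hM : 2 ≤ M) (h1 : 2 ≤ t) (h2 : t ≤ 2 * M ^ g) (hodd : t % 2 = 1)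
    (hsf : Squarefree (t * (4 * M ^ g - t))) :
    (t * (4 * M ^ g - t)) % 4 = 3 ∧
      ∀ (K : Type) [Field K] [NumberField K], Module.finrank ℚ K = 2 →
        discr K = -((t * (4 * M ^ g - t) : ℕ) : ℤ) →
        ∃ I : nonZeroDivisors (Ideal (𝓞 K)), Ideal.absNorm (I : Ideal (𝓞 K)) = M ∧
          orderOf (ClassGroup.mk0 I) = 2 * g := by
  have hMg : M ≤ M ^ g := Nat.le_self_pow (by omega) M
  obtain ⟨w, hw⟩ : ∃ w, w = 4 * M ^ g - t := ⟨_, rfl⟩
  have hpw : t + w = 4 * M ^ g := by omega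
  rw [← hw] at hsf ⊢
  have hcop : Nat.Coprime t w := Nat.coprime_of_squarefree_mul hsf
  have hcM : Nat.Coprime t M := by
    have h3 : Nat.Coprime t (4 * M ^ g) := by
      rw [← hpw]
      simpa using hcop
    exact Nat.Coprime.coprime_dvd_right ((dvd_pow_self M (by omega)).mul_left 4) h3
  refine ⟨?_, ?_⟩
  · have h4 : (t + w) % 4 = 0 := by rw [hpw]; omega
    have h5 : t % 4 = 1 ∧ w % 4 = 3 ∨ t % 4 = 3 ∧ w % 4 = 1 := by omega
    rw [Nat.mul_mod]
    rcases h5 with ⟨h5, h6⟩ | ⟨h5, h6⟩ <;> rw [h5, h6]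
  · intro K _ _ hK hd
    have hp3 : 3 ≤ t := by omega
    have hwp : 2 * M ^ g ≤ w := by omega
    have hppos : 0 < t * w := by
      have : 0 < w := by omega
      positivity
    have hppos' : (0 : ℤ) < ((t * w : ℕ) : ℤ) := by exact_mod_cast hppos
    refine Pool.Agent.X32.Cls.order_disc hK (by rw [hd]; omega) (n := (t : ℤ) - 2 * (M : ℤ) ^ g) (f := 1) hM (by omega)
      one_ne_zero ?_ ?_ ?_
    · have h3 : IsCoprime (t : ℤ) (M : ℤ) := by
        rw [Nat.isCoprime_iff_coprime]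
        exact hcM
      obtain ⟨g', rfl⟩ : ∃ g', g = g' + 1 := ⟨g - 1, by omega⟩
      have e : (t : ℤ) - 2 * (M : ℤ) ^ (g' + 1) = t + M * (-(2 * (M : ℤ) ^ g')) := by ring
      rw [e]
      exact h3.add_mul_left_left _
    · rw [hd]
      have e : (w : ℤ) = 4 * (M : ℤ) ^ g - t := by
        have : ((t + w : ℕ) : ℤ) = ((4 * M ^ g : ℕ) : ℤ) := by rw [hpw]
        push_cast at this
        linarith
      push_cast
      rw [e]
      ring
    · intro k hk hlt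
      rw [hd, abs_neg, abs_of_pos hppos']
      have hkg : k ≤ g := by
        obtain ⟨j, hj⟩ := hk
        have hj2 : 2 ≤ j := by
          by_contra hcon
          have : j = 0 ∨ j = 1 := by omega
          rcases this with rfl | rfl <;> omega
        nlinarith
      have h5 : M ^ k ≤ M ^ g := Nat.pow_le_pow_right (by omega) hkg
      have h6 : 4 * M ^ k < t * w := by
        calc 4 * M ^ k ≤ 4 * M ^ g := by omega
          _ < 3 * (2 * M ^ g) := by omega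
          _ ≤ t * w := Nat.mul_le_mul hp3 hwp
      exact_mod_cast h6

end Pool.Agent.X220.CG
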