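import Pool.Agent.X220.CG.Main

set_option autoImplicit false

/-! # The fields -/

namespace Pool.Agent.X220.CG

open Finset Polynomial NumberField
open Pool.Agent.X220.FP
open Pool.Agent.X55.Fam
open Pool.Agent.X32.Cls

lemma prod_lt {N a b : ℕ} (h : a < b) (hb : 2 * b ≤ N) : a * (N - a) < b * (N - b) := by
  obtain ⟨k, rfl⟩ : ∃ k, N = a + b + k := ⟨N - (a + b), by omega⟩
  have e1 : a + b + k - a = b + k := by omega
  have e2 : a + b + k - b = a + k := by omega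
  rw [e1, e2]
  have hk : 0 < k := by omega
  nlinarith

/-- the property of the fields -/
def Sp {s : ℕ} (X Y r : ℕ) (w : ℝ) (Q : Fin s → ℝ[X]) (u ρ : Fin s → ℝ) (M m : ℕ) (K : IntermediateField ℚ ℂ) : Prop :=
  ∃ _ : NumberField K, Module.finrank ℚ K = 2 ∧ (∃ x : K, (x : ℂ).im ≠ 0) ∧
    ∃ D : ℕ, discr K = -(D : ℤ) ∧ X < D ∧ D ≤ Y ∧ Squarefree D ∧ Good r w D ∧ InBox Q u ρ D ∧
      ∃ I : nonZeroDivisors (Ideal (𝓞 K)), Ideal.absNorm (I : Ideal (𝓞 K)) = M ∧ orderOf (ClassGroup.mk0 I) = m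

lemma sp_fin {s : ℕ} (X Y r : ℕ) (w : ℝ) (Q : Fin s → ℝ[X]) (u ρ : Fin s → ℝ) (M m : ℕ) :
    {K | Sp X Y r w Q u ρ M m K}.Finite := by
  refine finite_fields _ (Y : ℝ) fun K hK => ?_
  obtain ⟨h1, -, -, D, h2, -, h3, -⟩ := hK
  refine ⟨h1, ?_⟩
  rw [h2]
  push_cast
  rw [abs_neg, Nat.abs_cast]
  exact_mod_cast h3

lemma fld_inj {D D' : ℕ} (h1 : Squarefree D) (h2 : D % 4 = 3) (h1' : Squarefree D') (h2' : D' % 4 = 3)
    (he : fld D = fld D') : D = D' := by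
  obtain ⟨hNF, _, _, f3⟩ := fld_spec h1 h2
  obtain ⟨hNF', _, _, f3'⟩ := fld_spec h1' h2'
  have key : ∀ (A B : IntermediateField ℚ ℂ) (hA : NumberField A) (hB : NumberField B), A = B →
      discr A = discr B := by
    intro A B hA hB hAB
    subst hAB
    rfl
  have := key _ _ hNF hNF' he
  rw [f3, f3'] at this
  omega

theorem count (s d τ : ℕ) (hd : 1 ≤ d) (c₀ : ℝ) (hc₀ : 0 < c₀) (η : ℝ) (hη : 0 < η) :
    ∃ (r : ℕ) (δ c : ℝ) (H₀ : ℕ), 0 < δ ∧ 0 < c ∧ ∀ H : ℕ, H₀ ≤ H → ∀ M g : ℕ, 2 ≤ M → 1 ≤ g →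
      4 * (M : ℝ) ^ g ≤ (H : ℝ) ^ (2 - η) →
      ∀ Q : Fin s → ℝ[X], (∀ i, (Q i).natDegree ≤ d) → FT' c₀ τ (fun i => (Q i).coeff d) →
      ∀ u ρ : Fin s → ℝ, (∀ i, (H : ℝ) ^ (-δ) ≤ ρ i ∧ ρ i ≤ 1) → ∀ A : ℕ, 1 ≤ A → A + H ≤ 2 * M ^ g →
      c * (H * ∏ i, ρ i) / Real.log H ^ 2 ≤ (Set.ncard {K | Sp (A * (4 * M ^ g - A))
        ((A + H) * (4 * M ^ g - (A + H))) r ((H : ℝ) ^ δ) Q u ρ M (2 * g) K} : ℝ) := by
  obtain ⟨r, δ, c, H₀, hδ, hc, h⟩ := main s d τ hd c₀ hc₀ η hη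
  obtain ⟨H₁, hH₁⟩ := Pool.Agent.X220.CN.ev_pow' δ 2 hδ
  refine ⟨r, δ, c, max (max H₀ H₁) 1, hδ, hc, ?_⟩
  intro H hH M g hM hg hMg Q hQ hFT u ρ hρ A hA hAH
  have g0 : H₀ ≤ H := ((le_max_left _ _).trans (le_max_left _ _)).trans hH
  have g1 : H₁ ≤ H := ((le_max_right _ _).trans (le_max_left _ _)).trans hH
  have g2 : 1 ≤ H := (le_max_right _ _).trans hH
  have hMg1 : 1 ≤ M ^ g := Nat.one_le_pow _ _ (by omega)
  have key := h H g0 (4 * M ^ g) ⟨2 * M ^ g, by ring⟩ (by push_cast; exact hMg) Q hQ hFT u ρ hρ A (by omega)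
  refine key.trans ?_
  have hfacts : ∀ t ∈ {t : ℕ | A < t ∧ t ≤ A + H ∧ InBox Q u ρ (t * (4 * M ^ g - t)) ∧
        Squarefree (t * (4 * M ^ g - t)) ∧ Good r ((H : ℝ) ^ δ) (t * (4 * M ^ g - t))},
      (t * (4 * M ^ g - t)) % 4 = 3 ∧ ∀ (K : Type) [Field K] [NumberField K], Module.finrank ℚ K = 2 →
        discr K = -((t * (4 * M ^ g - t) : ℕ) : ℤ) →
        ∃ I : nonZeroDivisors (Ideal (𝓞 K)), Ideal.absNorm (I : Ideal (𝓞 K)) = M ∧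
          orderOf (ClassGroup.mk0 I) = 2 * g := by
    rintro t ⟨t1, t2, t3, t4, t5⟩
    refine spec hg hM (by omega) (by omega) ?_ t4
    by_contra hodd
    have h2 : 2 ∣ t * (4 * M ^ g - t) := Dvd.dvd.mul_right (by omega) _
    have h3 := t5.2.2 2 Nat.prime_two h2
    have h4 := hH₁ H g1
    push_cast at h3
    linarith
  have hle : (Set.ncard {t : ℕ | A < t ∧ t ≤ A + H ∧ InBox Q u ρ (t * (4 * M ^ g - t)) ∧
        Squarefree (t * (4 * M ^ g - t)) ∧ Good r ((H : ℝ) ^ δ) (t * (4 * M ^ g - t))}) ≤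
      Set.ncard {K | Sp (A * (4 * M ^ g - A)) ((A + H) * (4 * M ^ g - (A + H))) r ((H : ℝ) ^ δ) Q u ρ M (2 * g) K} := by
    refine Set.ncard_le_ncard_of_injOn (fun t => fld (t * (4 * M ^ g - t))) ?_ ?_ (sp_fin _ _ _ _ _ _ _ _ _)
    · intro t ht
      obtain ⟨a1, a2⟩ := hfacts t ht
      obtain ⟨t1, t2, t3, t4, t5⟩ := ht
      obtain ⟨hNF, f1, f2, f3⟩ := fld_spec t4 a1
      refine ⟨hNF, f1, f2, t * (4 * M ^ g - t), f3, prod_lt t1 (by omega), ?_, t4, t5, t3, a2 _ f1 f3⟩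
      rcases Nat.lt_or_eq_of_le t2 with h5 | h5
      · exact (prod_lt h5 (by omega)).le
      · rw [h5]
    · intro t ht t' ht' he
      obtain ⟨a1, a2⟩ := hfacts t ht
      obtain ⟨b1, b2⟩ := hfacts t' ht'
      obtain ⟨t1, t2, t3, t4, t5⟩ := ht
      obtain ⟨t1', t2', t3', t4', t5'⟩ := ht'
      have h6 := fld_inj t4 a1 t4' b1 he
      rcases lt_trichotomy t t' with h7 | h7 | h7
      · have := prod_lt (N := 4 * M ^ g) h7 (by omega)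
        omega
      · exact h7
      · have := prod_lt (N := 4 * M ^ g) h7 (by omega)
        omega
  exact_mod_cast hle

end Pool.Agent.X220.CG
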