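import Pool.Agent.X220.CG.Base

set_option autoImplicit false

/-! # Squarefree almost prime values of `t (N - t)` with prescribed fractional parts -/

namespace Pool.Agent.X220.CG

open Finset Polynomial
open Pool.Agent.X220.FP
open Pool.Agent.X220.CN
open Pool.Agent.X55.Fam

/-- the coefficients of the forms -/
def ca : Fin 2 → ℤ := ![1, -1]

/-- the constants of the forms -/
def cb (N : ℕ) : Fin 2 → ℤ := ![0, (N : ℤ)]

lemma adm {N : ℕ} (hN : 2 ∣ N) (q : ℕ) (hq : q.Prime) : ∃ n : ℕ, ∀ i, ¬ (q : ℤ) ∣ ca i * (n : ℤ) + cb N i := by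
  have h1 : ¬ (q : ℤ) ∣ 1 := by
    intro h
    have := Int.eq_one_of_dvd_one (by positivity) h
    exact hq.one_lt.ne' (by exact_mod_cast this)
  by_cases h : (q : ℤ) ∣ N - 1
  · refine ⟨2, fun i => ?_⟩
    have hq2 : ¬ (q : ℤ) ∣ 2 := by
      intro h2
      have h4 : q ∣ 2 := by exact_mod_cast h2
      have h5 : q = 2 := (Nat.prime_dvd_prime_iff_eq hq Nat.prime_two).1 h4
      subst h5
      omega
    fin_cases i
    · show ¬ (q : ℤ) ∣ 1 * ((2 : ℕ) : ℤ) + 0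
      simpa using hq2
    · show ¬ (q : ℤ) ∣ -1 * ((2 : ℕ) : ℤ) + N
      intro h2
      apply h1
      have := dvd_sub h h2
      push_cast at this
      ring_nf at this
      simpa using this
  · refine ⟨1, fun i => ?_⟩
    fin_cases i
    · show ¬ (q : ℤ) ∣ 1 * ((1 : ℕ) : ℤ) + 0
      simpa using h1
    · show ¬ (q : ℤ) ∣ -1 * ((1 : ℕ) : ℤ) + N
      intro h2
      apply h
      have e : (N : ℤ) - 1 = -1 * ((1 : ℕ) : ℤ) + N := by push_cast; ring
      rw [e]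
      exact h2

lemma ca_ne (i : Fin 2) : ca i ≠ 0 := by
  fin_cases i <;> simp [ca]

theorem main (s d τ : ℕ) (hd : 1 ≤ d) (c₀ : ℝ) (hc₀ : 0 < c₀) (η : ℝ) (hη : 0 < η) :
    ∃ (r : ℕ) (δ c : ℝ) (H₀ : ℕ), 0 < δ ∧ 0 < c ∧ ∀ H : ℕ, H₀ ≤ H → ∀ N : ℕ, 2 ∣ N → (N : ℝ) ≤ (H : ℝ) ^ (2 - η) →
      ∀ Q : Fin s → ℝ[X], (∀ i, (Q i).natDegree ≤ d) → FT' c₀ τ (fun i => (Q i).coeff d) →
      ∀ u ρ : Fin s → ℝ, (∀ i, (H : ℝ) ^ (-δ) ≤ ρ i ∧ ρ i ≤ 1) → ∀ M : ℕ, M + H < N →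
      c * (H * ∏ i, ρ i) / Real.log H ^ 2 ≤ (Set.ncard {t : ℕ | M < t ∧ t ≤ M + H ∧ InBox Q u ρ (t * (N - t)) ∧
        Squarefree (t * (N - t)) ∧ Good r ((H : ℝ) ^ δ) (t * (N - t))} : ℝ) := by
  classical
  obtain ⟨r, δ₁, c₁, C₁, H₁, hδ₁, hc₁, -, h⟩ := fp_lin s (d * 2) τ (by omega) c₀ hc₀ 2 (by norm_num) 3
  obtain ⟨c₂, hc₂, hlo⟩ := VQ_low 2 (by norm_num)
  set κ : ℝ := min (min δ₁ η) 1 / 4 with hκdef
  have hκ : 0 < κ := by
    have : 0 < min (min δ₁ η) 1 := by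
      refine lt_min (lt_min hδ₁ hη) one_pos
    positivity
  have hκ1 : 4 * κ ≤ δ₁ := by
    have : min (min δ₁ η) 1 ≤ δ₁ := (min_le_left _ _).trans (min_le_left _ _)
    linarith
  have hκ2 : 4 * κ ≤ η := by
    have : min (min δ₁ η) 1 ≤ η := (min_le_left _ _).trans (min_le_right _ _)
    linarith
  have hκ3 : 4 * κ ≤ 1 := by
    have : min (min δ₁ η) 1 ≤ 1 := min_le_right _ _
    linarith
  obtain ⟨H₂, hH₂⟩ := ev_log κ (c₁ * c₂ / 24) hκ (by positivity)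
  obtain ⟨H₃, hH₃⟩ := ev_pow' δ₁ 4 hδ₁
  obtain ⟨H₄, hH₄⟩ := ev_log κ 1 hκ one_pos
  have hs1 : (0 : ℝ) < (s : ℝ) + 1 := by positivity
  have hδ : 0 < κ / (s + 1) := by positivity
  have hδκ : κ / (s + 1) ≤ κ := div_le_self hκ.le (by linarith [(Nat.cast_nonneg s : (0 : ℝ) ≤ s)])
  refine ⟨2 * r, κ / (s + 1), c₁ * c₂ / 2, max (max (max H₁ H₂) (max H₃ H₄)) 3, hδ, by positivity, ?_⟩
  intro H hH N hN2 hN Q hQ hFT u ρ hρ M hM
  have g1 : H₁ ≤ H := ((le_max_left _ _).trans (le_max_left _ _)).trans ((le_max_left _ _).trans hH)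
  have g2 : H₂ ≤ H := ((le_max_right _ _).trans (le_max_left _ _)).trans ((le_max_left _ _).trans hH)
  have g3 : H₃ ≤ H := ((le_max_left _ _).trans (le_max_right _ _)).trans ((le_max_left _ _).trans hH)
  have g5 : H₄ ≤ H := ((le_max_right _ _).trans (le_max_right _ _)).trans ((le_max_left _ _).trans hH)
  have g4 : 3 ≤ H := (le_max_right _ _).trans hH
  have hH1 : (1 : ℝ) ≤ H := by exact_mod_cast (by omega : 1 ≤ H)
  have hH3 : (3 : ℝ) ≤ H := by exact_mod_cast g4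
  have hH0 : (0 : ℝ) < H := by linarith
  have hlog1 : 1 ≤ Real.log H := by
    rw [Real.le_log_iff_exp_le hH0]
    have := Real.exp_one_lt_d9
    linarith
  have hlog : 0 < Real.log H := by linarith
  set y : ℕ := ⌊(H : ℝ) ^ δ₁⌋₊ with hy
  have hy4 : 4 ≤ y := Nat.le_floor (by exact_mod_cast hH₃ H g3)
  -- the polynomials
  have hQc : ∀ i, ((Q i).comp (qq N)).natDegree ≤ d * 2 := fun i =>
    natDegree_comp_le.trans (Nat.mul_le_mul (hQ i) (qq_deg N))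
  have hFTc : FT' c₀ τ (fun i => ((Q i).comp (qq N)).coeff (d * 2)) := by
    refine FT'_sign hFT d fun i => ?_
    show ((Q i).comp (qq N)).coeff (d * 2) = (Q i).coeff d * (-1) ^ d
    rw [coeff_comp_top _ _ d 2 (hQ i) (qq_deg N) (by norm_num), qq_coeff]
  have hρ' : ∀ i, (H : ℝ) ^ (-δ₁) ≤ ρ i ∧ ρ i ≤ 1 := fun i =>
    ⟨(Real.rpow_le_rpow_of_exponent_le hH1 (by linarith)).trans (hρ i).1, (hρ i).2⟩
  have hN0 : N ≠ 0 := by omega
  have hN1 : (1 : ℝ) ≤ N := by exact_mod_cast Nat.pos_of_ne_zero hN0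
  have hNH : N ≤ H ^ 2 := by
    have h1 : (N : ℝ) ≤ (H : ℝ) ^ (2 : ℝ) := hN.trans (Real.rpow_le_rpow_of_exponent_le hH1 (by linarith))
    have h2 : (H : ℝ) ^ (2 : ℝ) = (H : ℝ) ^ 2 := by
      rw [← Real.rpow_natCast]
      norm_num
    rw [h2] at h1
    exact_mod_cast h1
  have hNH3 : N ≤ H ^ 3 := hNH.trans (Nat.pow_le_pow_right (by omega) (by norm_num))
  have had := adm hN2
  have hlow := (h H g1 ca (cb N) ca_ne had (fun i => (Q i).comp (qq N)) hQc hFTc u ρ hρ' M).1 (by omega) (by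
    intro i
    have : 1 ≤ H ^ 3 := Nat.one_le_pow _ _ (by omega)
    fin_cases i
    · show (1 : ℤ).natAbs ≤ _
      simpa using this
    · show (-1 : ℤ).natAbs ≤ _
      simpa using this) (by
    intro i
    fin_cases i
    · show (0 : ℤ).natAbs ≤ _
      simp
    · show (N : ℤ).natAbs ≤ _
      rw [Int.natAbs_natCast]
      exact hNH3)
  have hV : c₂ / Real.log H ^ 2 ≤ VL ca (cb N) H := by
    rw [VL_eq]
    exact hlo _ (adm_lin ca (cb N) had) H g4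
  have hρ0 : 0 ≤ ∏ i, ρ i := prod_nonneg fun i _ => le_trans (by positivity) (hρ i).1
  have hX : 0 ≤ (H : ℝ) * ∏ i, ρ i := mul_nonneg hH0.le hρ0
  have hlow2 : c₁ * c₂ * (H * ∏ i, ρ i) / Real.log H ^ 2 ≤ c₁ * ((H * ∏ i, ρ i) * VL ca (cb N) H) := by
    calc c₁ * c₂ * (H * ∏ i, ρ i) / Real.log H ^ 2 = c₁ * ((H * ∏ i, ρ i) * (c₂ / Real.log H ^ 2)) := by ring
      _ ≤ _ := mul_le_mul_of_nonneg_left (mul_le_mul_of_nonneg_left hV hX) hc₁.le
  -- the sets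
  set S : Set ℕ := {n : ℕ | M < n ∧ n ≤ M + H ∧ InBox (fun i => (Q i).comp (qq N)) u ρ n ∧
    ∀ i, Good r ((H : ℝ) ^ δ₁) (ca i * n + cb N i).natAbs} with hS
  set T : Set ℕ := {t : ℕ | M < t ∧ t ≤ M + H ∧ InBox Q u ρ (t * (N - t)) ∧
        Squarefree (t * (N - t)) ∧ Good (2 * r) ((H : ℝ) ^ (κ / (s + 1))) (t * (N - t))} with hT
  let bad1 : Finset ℕ := (Ioc M (M + H)).filter (fun m => ∃ p : ℕ, p.Prime ∧ y < p ∧ p ^ 2 ∣ id m)
  let bad2 : Finset ℕ := (Ioc M (M + H)).filter (fun m => ∃ p : ℕ, p.Prime ∧ y < p ∧ p ^ 2 ∣ (fun m => N - m) m)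
  let bad3 : Finset ℕ := (Ioc M (M + H)).filter (fun m => ∃ p : ℕ, p.Prime ∧ y < p ∧ p ∣ m ∧ p ∣ N)
  have hTfin : T.Finite := (Set.finite_Iic (M + H)).subset fun m hm => hm.2.1
  have hsub : S ⊆ T ∪ ((bad1 ∪ bad2 ∪ bad3 : Finset ℕ) : Set ℕ) := by
    intro t ht
    obtain ⟨m1, m2, m3, m4⟩ := ht
    have htN : t ≤ N := by omega
    have G0 : Good r ((H : ℝ) ^ δ₁) t := by
      have := m4 0
      have e : (ca 0 * (t : ℤ) + cb N 0).natAbs = t := by
        show (1 * (t : ℤ) + 0).natAbs = t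
        simp
      rwa [e] at this
    have G1 : Good r ((H : ℝ) ^ δ₁) (N - t) := by
      have := m4 1
      have e : (ca 1 * (t : ℤ) + cb N 1).natAbs = N - t := by
        show (-1 * (t : ℤ) + N).natAbs = N - t
        omega
      rwa [e] at this
    have hlarge : ∀ p : ℕ, ((H : ℝ) ^ δ₁ < p) → y < p := by
      intro p hp
      have h2 : (y : ℝ) ≤ (H : ℝ) ^ δ₁ := Nat.floor_le (by positivity)
      exact_mod_cast lt_of_le_of_lt h2 hp
    by_cases hb : t ∈ bad1 ∪ bad2 ∪ bad3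
    · right
      exact hb
    · left
      simp only [mem_union, not_or] at hb
      obtain ⟨⟨hb1, hb2⟩, hb3⟩ := hb
      have hI : t ∈ Ioc M (M + H) := mem_Ioc.2 ⟨m1, m2⟩
      have q1 : Squarefree t := by
        rw [Nat.squarefree_iff_prime_squarefree]
        intro p hpp hpd
        apply hb1
        simp only [bad1, mem_filter]
        refine ⟨hI, p, hpp, hlarge p (G0.2.2 p hpp ((Dvd.intro _ rfl).trans hpd)), ?_⟩
        rw [pow_two]
        exact hpd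
      have q2 : Squarefree (N - t) := by
        rw [Nat.squarefree_iff_prime_squarefree]
        intro p hpp hpd
        apply hb2
        simp only [bad2, mem_filter]
        refine ⟨hI, p, hpp, hlarge p (G1.2.2 p hpp ((Dvd.intro _ rfl).trans hpd)), ?_⟩
        rw [pow_two]
        exact hpd
      have q3 : Nat.Coprime t (N - t) := by
        refine Nat.Coprime.symm (Nat.coprime_of_dvd ?_)
        intro p hpp h1 h2
        apply hb3
        simp only [bad3, mem_filter]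
        refine ⟨hI, p, hpp, hlarge p (G0.2.2 p hpp h2), h2, ?_⟩
        have := dvd_add h1 h2
        rwa [Nat.sub_add_cancel htN] at this
      refine ⟨m1, m2, ?_, (Nat.squarefree_mul q3).2 ⟨q1, q2⟩, mul_ne_zero G0.1 G1.1, ?_, ?_⟩
      · intro i
        have := m3 i
        rw [eval_comp, qq_eval htN] at this
        exact this
      · have l1 := (Nat.perm_primeFactorsList_mul G0.1 G1.1).length_eq
        rw [List.length_append] at l1
        rw [l1]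
        have := G0.2.1
        have := G1.2.1
        omega
      · intro q hq hqd
        have hle : (H : ℝ) ^ (κ / (s + 1)) ≤ (H : ℝ) ^ δ₁ := Real.rpow_le_rpow_of_exponent_le hH1 (by linarith)
        rcases hq.dvd_mul.1 hqd with h | h
        · exact lt_of_le_of_lt hle (G0.2.2 q hq h)
        · exact lt_of_le_of_lt hle (G1.2.2 q hq h)
  have hcard : (S.ncard : ℝ) ≤ T.ncard + (bad1.card + bad2.card + bad3.card) := by
    have h1 : S.ncard ≤ (T ∪ ((bad1 ∪ bad2 ∪ bad3 : Finset ℕ) : Set ℕ)).ncard :=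
      Set.ncard_le_ncard hsub (hTfin.union (Finset.finite_toSet _))
    have h2 := h1.trans (Set.ncard_union_le _ _)
    rw [Set.ncard_coe_finset] at h2
    have h3 := card_union_le (bad1 ∪ bad2) bad3
    have h4 := card_union_le bad1 bad2
    have h5 : S.ncard ≤ T.ncard + (bad1.card + bad2.card + bad3.card) := by omega
    exact_mod_cast h5
  -- the bound for the bad numbers
  have hκH : 0 < (H : ℝ) ^ (1 - 2 * κ) := Real.rpow_pos_of_pos hH0 _
  have hy1 : (H : ℝ) ^ δ₁ ≤ y + 1 := (Nat.lt_floor_add_one _).le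
  have hHδ : 0 < (H : ℝ) ^ δ₁ := Real.rpow_pos_of_pos hH0 _
  have hHy : (H : ℝ) / (y + 1) ≤ (H : ℝ) ^ (1 - 4 * κ) := by
    calc (H : ℝ) / (y + 1) ≤ (H : ℝ) / (H : ℝ) ^ δ₁ := div_le_div_of_nonneg_left (by positivity) hHδ hy1
      _ = (H : ℝ) ^ (1 - δ₁) := by rw [Real.rpow_sub hH0, Real.rpow_one]
      _ ≤ _ := Real.rpow_le_rpow_of_exponent_le hH1 (by linarith)
  have h42 : (H : ℝ) ^ (1 - 4 * κ) ≤ (H : ℝ) ^ (1 - 2 * κ) := Real.rpow_le_rpow_of_exponent_le hH1 (by linarith)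
  have hsq : Real.sqrt N ≤ (H : ℝ) ^ (1 - 2 * κ) := by
    rw [Real.sqrt_le_left (by positivity)]
    have h4 : ((H : ℝ) ^ (1 - 2 * κ)) ^ 2 = (H : ℝ) ^ (2 - 4 * κ) := by
      rw [← Real.rpow_natCast ((H : ℝ) ^ (1 - 2 * κ)) 2, ← Real.rpow_mul hH0.le]
      norm_num
      ring_nf
    rw [h4]
    exact hN.trans (Real.rpow_le_rpow_of_exponent_le hH1 (by linarith))
  have b1 : (bad1.card : ℝ) ≤ 3 * (H : ℝ) ^ (1 - 2 * κ) := by
    have := bad_gen id N y M H (by omega) (fun m h1 h2 => ⟨by simp only [id]; omega, by simp only [id]; omega⟩) (by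
      intro p _ m m' _ _ _ _ h5 h6
      exact (Nat.modEq_zero_iff_dvd.2 h5).trans (Nat.modEq_zero_iff_dvd.2 h6).symm)
    have e : 2 * (H : ℝ) / (y + 1) = 2 * (H / (y + 1)) := by ring
    rw [e] at this
    linarith
  have b2 : (bad2.card : ℝ) ≤ 3 * (H : ℝ) ^ (1 - 2 * κ) := by
    have := bad_gen (fun m => N - m) N y M H (by omega) (fun m h1 h2 => ⟨by omega, by omega⟩) (by
      intro p _ m m' h1 h2 h3 h4 h5 h6
      have h7 : N - m ≡ N - m' [MOD p ^ 2] := (Nat.modEq_zero_iff_dvd.2 h5).trans (Nat.modEq_zero_iff_dvd.2 h6).symm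
      refine Nat.ModEq.add_right_cancel h7 ?_
      rw [Nat.add_sub_cancel' (by omega), Nat.add_sub_cancel' (by omega)])
    have e : 2 * (H : ℝ) / (y + 1) = 2 * (H / (y + 1)) := by ring
    rw [e] at this
    linarith
  have b3 : (bad3.card : ℝ) ≤ 6 * (H : ℝ) ^ (1 - 2 * κ) := by
    have h1 := bad_gcd N y M H hN0 (by omega)
    have h2 : (Nat.log 2 N : ℝ) ≤ 3 * Real.log H := by
      have h3 : (Nat.log 2 N : ℝ) * Real.log 2 ≤ Real.log N := by
        rw [← Real.log_pow]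
        refine Real.log_le_log (by positivity) ?_
        exact_mod_cast Nat.pow_log_le_self 2 hN0
      have h4 : Real.log N ≤ 2 * Real.log H := by
        have h5 : (N : ℝ) ≤ (H : ℝ) ^ 2 := by exact_mod_cast hNH
        calc Real.log N ≤ Real.log ((H : ℝ) ^ 2) := Real.log_le_log (by linarith) h5
          _ = 2 * Real.log H := by rw [Real.log_pow]; norm_num
      have h6 := Real.log_two_gt_d9
      have h7 : (0 : ℝ) ≤ Nat.log 2 N := Nat.cast_nonneg _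
      nlinarith
    have h3 : (H : ℝ) / (y + 1) + 1 ≤ 2 * (H : ℝ) ^ (1 - 4 * κ) := by
      have : (1 : ℝ) ≤ (H : ℝ) ^ (1 - 4 * κ) := Real.one_le_rpow hH1 (by linarith)
      linarith
    have h4 : Real.log H ≤ (H : ℝ) ^ κ := by
      have h5 := hH₄ H g5
      rw [one_mul] at h5
      refine le_trans ?_ h5
      nlinarith [sq_nonneg (Real.log H), pow_le_pow_right₀ hlog1 (by norm_num : 1 ≤ 3)]
    have h5 : (H : ℝ) ^ κ * (H : ℝ) ^ (1 - 4 * κ) ≤ (H : ℝ) ^ (1 - 2 * κ) := by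
      rw [← Real.rpow_add hH0]
      exact Real.rpow_le_rpow_of_exponent_le hH1 (by linarith)
    have h6 : 0 < (H : ℝ) ^ (1 - 4 * κ) := Real.rpow_pos_of_pos hH0 _
    calc (bad3.card : ℝ) ≤ Nat.log 2 N * (H / (y + 1) + 1) := h1
      _ ≤ (3 * Real.log H) * (2 * (H : ℝ) ^ (1 - 4 * κ)) := by
        refine mul_le_mul h2 h3 (by positivity) (by positivity)
      _ ≤ (3 * (H : ℝ) ^ κ) * (2 * (H : ℝ) ^ (1 - 4 * κ)) := by
        refine mul_le_mul_of_nonneg_right ?_ (by positivity)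
        linarith
      _ = 6 * ((H : ℝ) ^ κ * (H : ℝ) ^ (1 - 4 * κ)) := by ring
      _ ≤ _ := by linarith
  -- comparison
  have hprod : (H : ℝ) ^ (-κ) ≤ ∏ i, ρ i := by
    have h1 : ∏ _i : Fin s, (H : ℝ) ^ (-(κ / (s + 1))) ≤ ∏ i, ρ i :=
      prod_le_prod (fun _ _ => by positivity) fun i _ => (hρ i).1
    refine le_trans ?_ h1
    rw [prod_const, card_univ, Fintype.card_fin, ← Real.rpow_natCast, ← Real.rpow_mul hH0.le]
    refine Real.rpow_le_rpow_of_exponent_le hH1 ?_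
    have : κ / (s + 1) * s ≤ κ := by
      rw [div_mul_eq_mul_div, div_le_iff₀ hs1]
      nlinarith
    linarith
  have hfinal : 12 * (H : ℝ) ^ (1 - 2 * κ) ≤ c₁ * c₂ / 2 * (H * ∏ i, ρ i) / Real.log H ^ 2 := by
    rw [le_div_iff₀ (by positivity)]
    have h1 : Real.log H ^ 2 ≤ c₁ * c₂ / 24 * (H : ℝ) ^ κ :=
      (pow_le_pow_right₀ hlog1 (by norm_num)).trans (hH₂ H g2)
    have h2 : (H : ℝ) * (H : ℝ) ^ (-κ) ≤ H * ∏ i, ρ i := mul_le_mul_of_nonneg_left hprod hH0.le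
    have h3 : (H : ℝ) * (H : ℝ) ^ (-κ) = (H : ℝ) ^ (1 - 2 * κ) * (H : ℝ) ^ κ := by
      rw [← Real.rpow_add hH0]
      nth_rewrite 1 [← Real.rpow_one (H : ℝ)]
      rw [← Real.rpow_add hH0]
      congr 1
      ring
    rw [h3] at h2
    calc 12 * (H : ℝ) ^ (1 - 2 * κ) * Real.log H ^ 2
        ≤ 12 * (H : ℝ) ^ (1 - 2 * κ) * (c₁ * c₂ / 24 * (H : ℝ) ^ κ) :=
          mul_le_mul_of_nonneg_left h1 (by positivity)
      _ = c₁ * c₂ / 2 * ((H : ℝ) ^ (1 - 2 * κ) * (H : ℝ) ^ κ) := by ring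
      _ ≤ c₁ * c₂ / 2 * (H * ∏ i, ρ i) := mul_le_mul_of_nonneg_left h2 (by positivity)
  have hhalf : c₁ * c₂ * (H * ∏ i, ρ i) / Real.log H ^ 2 = c₁ * c₂ / 2 * (H * ∏ i, ρ i) / Real.log H ^ 2 +
      c₁ * c₂ / 2 * (H * ∏ i, ρ i) / Real.log H ^ 2 := by ring
  have hlow3 := hlow2.trans hlow
  rw [hhalf] at hlow3
  linarith

end Pool.Agent.X220.CG
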